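import Pool.Agent.Helper65.TU.FinalF

open Set
open scoped ENNReal

namespace Pool.Agent.Results.MP_5c2ead_an.LatticesAndUnconditionalBases

universe u

/-- K is weakly compact. -/
def WCompact {X : Type u} [NormedAddCommGroup X] [NormedSpace ℝ X] (K : Set X) : Prop :=
  IsCompact (toWeakSpace ℝ X '' K)

/-- K(A): the weakly compact subsets of X contained in A. -/
def WeaklyCompact (X : Type u) [NormedAddCommGroup X] [NormedSpace ℝ X] (A : Set X) : Type u :=
  {K : Set X // K ⊆ A ∧ WCompact K}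

/-- The relation K ≤_t L of AK(A): K is contained in L + t B_X. -/
def AK (X : Type u) [NormedAddCommGroup X] [NormedSpace ℝ X] (A : Set X) (t : ℝ)
    (K L : WeaklyCompact X A) : Prop :=
  ∀ x ∈ K.1, ∃ y ∈ L.1, ‖x - y‖ ≤ t

/-- Tukey reducibility of asymptotic structures. -/
def TukeyReducible {P Q : Type u} (leP : ℝ → P → P → Prop) (leQ : ℝ → Q → Q → Prop) : Prop :=
  ∃ f : ℝ → P → Q, ∀ ε > 0, ∃ δ > 0, ∀ q₀ : Q, ∃ p₀ : P, ∀ p : P,
    leQ δ (f ε p) q₀ → leP ε p p₀

/-- The closed unit ball of X. -/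
def Ball (X : Type u) [NormedAddCommGroup X] : Set X := {x | ‖x‖ ≤ 1}

/-- X is reflexive. -/
def Reflexive (X : Type u) [NormedAddCommGroup X] [NormedSpace ℝ X] : Prop :=
  Function.Surjective (NormedSpace.inclusionInDoubleDual ℝ X)

/-- (e g) is an unconditional basis of X with constant C, indexed by an arbitrary set Γ: nonzero
vectors with dense linear span and `‖Σ a g • e g‖ ≤ C ‖Σ b g • e g‖` for finitely supported a, b
with |a| ≤ |b|. -/
structure UnconditionalBasis {Γ : Type u} {X : Type u} [NormedAddCommGroup X] [NormedSpace ℝ X]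
    (e : Γ → X) (C : ℝ) : Prop where
  ne : ∀ g, e g ≠ 0
  dense : closure (Submodule.span ℝ (range e) : Set X) = univ
  unc : ∀ a b : Γ →₀ ℝ, (∀ g, |a g| ≤ |b g|) →
    ‖a.sum fun g t => t • e g‖ ≤ C * ‖b.sum fun g t => t • e g‖

/-- Y is complemented in X (up to isomorphism): P T = id_Y, both operators bounded by a ≥ 1. -/
structure Complemented {X Y : Type u} [NormedAddCommGroup X] [NormedSpace ℝ X]
    [NormedAddCommGroup Y] [NormedSpace ℝ Y] (a : ℝ) (T : Y →L[ℝ] X) (P : X →L[ℝ] Y) : Prop where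
  one : 1 ≤ a
  inv : ∀ y, P (T y) = y
  bdT : ∀ y, ‖T y‖ ≤ a * ‖y‖
  bdP : ∀ x, ‖P x‖ ≤ a * ‖x‖

/-- X is strongly generated by the weakly compact set W (an SWCG space). -/
def StronglyGenerates {X : Type u} [NormedAddCommGroup X] [NormedSpace ℝ X] (W : Set X) : Prop :=
  WCompact W ∧ ∀ ε > (0 : ℝ), ∀ L : Set X, WCompact L →
    ∃ n : ℕ, ∀ x ∈ L, ∃ w ∈ W, ‖x - (n : ℝ) • w‖ ≤ ε

/-- T maps X onto Z, the kernel of T is reflexive, ‖T x‖ ≤ a ‖x‖ and every z has a preimage of norm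
at most a ‖z‖: up to isomorphism, Z is the quotient of X by a reflexive subspace. -/
structure ReflexiveQuotient {X Z : Type u} [NormedAddCommGroup X] [NormedSpace ℝ X]
    [NormedAddCommGroup Z] [NormedSpace ℝ Z] (a : ℝ) (T : X →L[ℝ] Z) : Prop where
  one : 1 ≤ a
  nrm : ∀ x, ‖T x‖ ≤ a * ‖x‖
  lift : ∀ z, ∃ x, T x = z ∧ ‖x‖ ≤ a * ‖z‖
  refl : Reflexive (LinearMap.ker (T : X →ₗ[ℝ] Z))

/-- `Good δ X` is a class of normed spaces with a parameter 0 < δ ≤ 1. It contains
* the reflexive spaces (δ = 1),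
* the complemented subspaces (T, P bounded by a) of Banach spaces with an unconditional basis of
  any cardinality (constant C ≥ 1, δ = 1/(4Ca²)),
* the spaces C_0(L), L locally compact Hausdorff (δ = 1/4),
* the complemented subspaces of Banach lattices in which the solid hull of every weakly compact
  set is contained in a weakly compact set (δ = 1/(2a²)),
* the spaces with the Schur property, of any density (δ = 1/8),
* the strongly weakly compactly generated Banach spaces (δ = 1/32),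
and is closed under finite sums, isomorphisms T (with ‖T‖, ‖T⁻¹‖ ≤ a: δ/(2a²)), l_p-sums
(1 ≤ p < ∞) of arbitrary families of spaces with a common δ (δ/32), quotients by reflexive
subspaces and extensions by reflexive subspaces (δ/(2a²), see `ReflexiveQuotient`),
and decreasing δ. -/
inductive Good : ℝ → ∀ (X : Type u) [NormedAddCommGroup X] [NormedSpace ℝ X], Prop
  | reflexive (X : Type u) [NormedAddCommGroup X] [NormedSpace ℝ X] : Reflexive X → Good 1 X
  | unconditional (X Y : Type u) [NormedAddCommGroup X] [NormedSpace ℝ X] [CompleteSpace X]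
      [NormedAddCommGroup Y] [NormedSpace ℝ Y] (Γ : Type u) (e : Γ → X) (C a : ℝ) (T : Y →L[ℝ] X)
      (P : X →L[ℝ] Y) : 1 ≤ C → UnconditionalBasis e C → Complemented a T P →
      Good (1 / (4 * C * a ^ 2)) Y
  | czero (L : Type u) [TopologicalSpace L] [LocallyCompactSpace L] [T2Space L] :
      Good (1 / 4) (ZeroAtInftyContinuousMap L ℝ)
  | lattice (X Y : Type u) [NormedAddCommGroup X] [NormedSpace ℝ X] [Lattice X]
      [HasSolidNorm X] [IsOrderedAddMonoid X] [NormedAddCommGroup Y] [NormedSpace ℝ Y] (a : ℝ)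
      (T : Y →L[ℝ] X) (P : X →L[ℝ] Y) :
      (∀ K : Set X, WCompact K → ∃ K', WCompact K' ∧ ∀ x ∈ K, ∀ y, |y| ≤ |x| → y ∈ K') →
      Complemented a T P → Good (1 / (2 * a ^ 2)) Y
  | schur (X : Type u) [NormedAddCommGroup X] [NormedSpace ℝ X] :
      (∀ K : Set X, WCompact K → IsCompact K) → Good (1 / 8) X
  | swcg (X : Type u) [NormedAddCommGroup X] [NormedSpace ℝ X] [CompleteSpace X] (W : Set X) :
      StronglyGenerates W → Good (1 / 32) X
  | sum (δ : ℝ) (X Y : Type u) [NormedAddCommGroup X] [NormedSpace ℝ X] [NormedAddCommGroup Y]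
      [NormedSpace ℝ Y] : Good δ X → Good δ Y → Good δ (X × Y)
  | iso (δ a : ℝ) (X Y : Type u) [NormedAddCommGroup X] [NormedSpace ℝ X] [NormedAddCommGroup Y]
      [NormedSpace ℝ Y] (T : X ≃L[ℝ] Y) : 1 ≤ a → ‖(T : X →L[ℝ] Y)‖ ≤ a →
      ‖(T.symm : Y →L[ℝ] X)‖ ≤ a → Good δ X → Good (δ / (2 * a ^ 2)) Y
  | lpSum (δ : ℝ) (Γ : Type u) (X : Γ → Type u) [∀ g, NormedAddCommGroup (X g)]
      [∀ g, NormedSpace ℝ (X g)] (p : ℝ≥0∞) [Fact (1 ≤ p)] : p ≠ ⊤ → 0 < δ → δ ≤ 1 →
      (∀ g, Good δ (X g)) → Good (δ / 32) (lp X p)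
  | quotient (δ a : ℝ) (X Z : Type u) [NormedAddCommGroup X] [NormedSpace ℝ X]
      [NormedAddCommGroup Z] [NormedSpace ℝ Z] (T : X →L[ℝ] Z) : ReflexiveQuotient a T →
      Good δ X → Good (δ / (2 * a ^ 2)) Z
  | extension (δ a : ℝ) (X Z : Type u) [NormedAddCommGroup X] [NormedSpace ℝ X]
      [NormedAddCommGroup Z] [NormedSpace ℝ Z] (T : X →L[ℝ] Z) : ReflexiveQuotient a T →
      Good δ Z → Good (δ / (2 * a ^ 2)) X
  | mono (δ δ' : ℝ) (X : Type u) [NormedAddCommGroup X] [NormedSpace ℝ X] : 0 < δ' → δ' ≤ δ →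
      Good δ X → Good δ' X

open Pool.Agent.Helper65.TU in
theorem Good.amp {X : Type u} [NormedAddCommGroup X] [NormedSpace ℝ X] {δ : ℝ} (h : Good δ X) :
    0 < δ ∧ AMPd δ X := by
  induction h with
  | reflexive X h => exact ⟨one_pos, rfld X h 1⟩
  | unconditional X Y Γ e C a T P hC h hT =>
    have := hT.one
    exact ⟨by positivity,
      uncdc Γ X Y e C hC ⟨h.ne, h.dense, h.unc⟩ T P a hT.one hT.inv hT.bdT hT.bdP⟩
  | czero L => exact ⟨by norm_num, c0d L⟩
  | lattice X Y a T P h hT =>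
    have := hT.one
    exact ⟨by positivity, latdc X Y h T P a hT.one hT.inv hT.bdT hT.bdP⟩
  | schur X h => exact ⟨by norm_num, schd X h⟩
  | swcg X W h => exact ⟨by norm_num, fin_SWC X W h⟩
  | sum δ X Y _ _ h1 h2 => exact ⟨h1.1, prodd X Y h1.2 h2.2⟩
  | iso δ a X Y T h1 h2 h3 _ h => exact ⟨by have := h.1; positivity, isod X Y T h1 h2 h3 h.1 h.2⟩
  | lpSum δ Γ X p h2 h3 h4 _ h =>
    refine ⟨by positivity, ?_⟩
    rcases eq_or_lt_of_le (Fact.out : 1 ≤ p) with h1 | h1
    · subst h1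
      exact fin_LPA1 Γ X δ h3 h4 fun g => (h g).2
    · exact (fin_LPA Γ X p h1 h2 δ h3 h4 fun g => (h g).2).mono (by linarith)
  | quotient δ a X Z T hT _ h =>
    have := hT.one
    exact ⟨by have := h.1; positivity,
      fin_RQ3 X Z a T ⟨hT.one, hT.nrm, hT.lift, hT.refl⟩ δ h.1 h.2⟩
  | extension δ a X Z T hT _ h =>
    have := hT.one
    exact ⟨by have := h.1; positivity,
      fin_RQ2 X Z a T ⟨hT.one, hT.nrm, hT.lift, hT.refl⟩ δ h.1 h.2⟩
  | mono δ δ' X h1 h2 _ h => exact ⟨h1, h.2.mono h2⟩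

theorem result : ∀ (δ : ℝ) (X : Type u) [NormedAddCommGroup X] [NormedSpace ℝ X]
    [CompleteSpace X], Good δ X → ¬ Reflexive X →
    TukeyReducible (AK X univ) (AK X (Ball X)) ∧ TukeyReducible (AK X (Ball X)) (AK X univ) := by
  intro δ X _ _ _ h hr
  exact ⟨Pool.Agent.Helper65.TU.fin_RED X hr (h.amp.2.amp h.amp.1),
    Pool.Agent.Helper65.TU.st_REV X⟩

end Pool.Agent.Results.MP_5c2ead_an.LatticesAndUnconditionalBases
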