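import Pool.Agent.Helper86.TK.Main

open Set

namespace Pool.Agent.Results.MP_5c2ead_an.NoUniformDelta

/-- K(A): the weakly compact subsets of X contained in A. -/
def WeaklyCompact (X : Type) [NormedAddCommGroup X] [NormedSpace ℝ X] (A : Set X) : Type :=
  {K : Set X // K ⊆ A ∧ IsCompact (toWeakSpace ℝ X '' K)}

/-- The relation K ≤_t L of AK(A): K is contained in L + t B_X. -/
def AK (X : Type) [NormedAddCommGroup X] [NormedSpace ℝ X] (A : Set X) (t : ℝ)
    (K L : WeaklyCompact X A) : Prop :=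
  ∀ x ∈ K.1, ∃ y ∈ L.1, ‖x - y‖ ≤ t

/-- Tukey reducibility of asymptotic structures. -/
def TukeyReducible {P Q : Type} (leP : ℝ → P → P → Prop) (leQ : ℝ → Q → Q → Prop) : Prop :=
  ∃ f : ℝ → P → Q, ∀ ε > 0, ∃ δ > 0, ∀ q₀ : Q, ∃ p₀ : P, ∀ p : P,
    leQ δ (f ε p) q₀ → leP ε p p₀

/-- The closed unit ball of X. -/
def Ball (X : Type) [NormedAddCommGroup X] : Set X := {x | ‖x‖ ≤ 1}

/-- X is reflexive. -/
def Reflexive (X : Type) [NormedAddCommGroup X] [NormedSpace ℝ X] : Prop :=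
  Function.Surjective (NormedSpace.inclusionInDoubleDual ℝ X)

theorem result :
    (∀ δ > (0 : ℝ), ∃ (X : Type) (_ : NormedAddCommGroup X) (_ : NormedSpace ℝ X),
      CompleteSpace X ∧ ¬ Reflexive X ∧
      ¬ ∃ f : WeaklyCompact X univ → WeaklyCompact X (Ball X),
        ∀ L : WeaklyCompact X (Ball X), ∃ M : WeaklyCompact X univ,
          ∀ K : WeaklyCompact X univ, AK X (Ball X) δ (f K) L → AK X univ 1 K M) ∧
    (Cardinal.aleph Ordinal.omega0 ≤ Cardinal.continuum.{0} →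
      ∃ (X : Type) (_ : NormedAddCommGroup X) (_ : NormedSpace ℝ X),
        CompleteSpace X ∧ ¬ Reflexive X ∧
        ¬ TukeyReducible (AK X univ) (AK X (Ball X))) := by
  have hb : ∀ (X : Type) [NormedAddCommGroup X], Ball X = Metric.closedBall 0 1 := by
    intro X _
    ext x
    simp [Ball]
  constructor
  · intro δ hδ
    obtain ⟨X, h1, h2, hc, hr, hf⟩ := Pool.Agent.Helper86.TK.main_A δ hδ
    refine ⟨X, h1, h2, hc, hr, ?_⟩
    rw [hb X]
    exact hf
  · intro h
    obtain ⟨X, h1, h2, hc, hr, hf⟩ := Pool.Agent.Helper86.TK.main_B h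
    refine ⟨X, h1, h2, hc, hr, ?_⟩
    unfold TukeyReducible
    rw [hb X]
    exact hf

end Pool.Agent.Results.MP_5c2ead_an.NoUniformDelta
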