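import Pool.Agent.Helper65.JLF.Final

open Set

namespace Pool.Agent.Results.MP_5c2ead_an.WeightedJohnsonLindenstrauss

/-- K is weakly compact. -/
def WCompact {X : Type} [NormedAddCommGroup X] [NormedSpace ℝ X] (K : Set X) : Prop :=
  IsCompact (toWeakSpace ℝ X '' K)

/-- K(A): the weakly compact subsets of X contained in A. -/
def WeaklyCompact (X : Type) [NormedAddCommGroup X] [NormedSpace ℝ X] (A : Set X) : Type :=
  {K : Set X // K ⊆ A ∧ WCompact K}

/-- The relation K ≤_t L of AK(A): K is contained in L + t B_X. -/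
def AK (X : Type) [NormedAddCommGroup X] [NormedSpace ℝ X] (A : Set X) (t : ℝ)
    (K L : WeaklyCompact X A) : Prop :=
  ∀ x ∈ K.1, ∃ y ∈ L.1, ‖x - y‖ ≤ t

/-- Tukey reducibility of asymptotic structures. -/
def TukeyReducible {P Q : Type} (leP : ℝ → P → P → Prop) (leQ : ℝ → Q → Q → Prop) : Prop :=
  ∃ f : ℝ → P → Q, ∀ ε > 0, ∃ δ > 0, ∀ q₀ : Q, ∃ p₀ : P, ∀ p : P,
    leQ δ (f ε p) q₀ → leP ε p p₀

/-- The closed unit ball of X. -/
def Ball (X : Type) [NormedAddCommGroup X] : Set X := {x | ‖x‖ ≤ 1}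

/-- X is reflexive: every functional on the dual of X is the evaluation at a point of X. -/
def Reflexive (X : Type) [NormedAddCommGroup X] [NormedSpace ℝ X] : Prop :=
  ∀ F : StrongDual ℝ (StrongDual ℝ X), ∃ x : X, ∀ f : StrongDual ℝ X, F f = f x

/-- AK(X) and AK(B_X) are Tukey equivalent. -/
def TukeyEquivalent (X : Type) [NormedAddCommGroup X] [NormedSpace ℝ X] : Prop :=
  TukeyReducible (AK X univ) (AK X (Ball X)) ∧ TukeyReducible (AK X (Ball X)) (AK X univ)

/-- The nodes of the binary tree: finite sequences of zeros and ones. -/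
abbrev Node := List Bool

open Classical in
/-- The indicator function of the branch x: 1 at the nodes which are initial segments of x. -/
noncomputable def branch (x : ℕ → Bool) (t : Node) : ℝ :=
  if t = (List.range t.length).map x then 1 else 0

theorem branch_mem (x : ℕ → Bool) : Memℓp (branch x) ⊤ := by
  refine memℓp_infty ⟨1, ?_⟩
  rintro _ ⟨t, rfl⟩
  unfold branch
  beta_reduce
  split_ifs <;> simp

/-- l_2(Γ). -/
abbrev L2 (Γ : Type) : Type := lp (fun _ : Γ => ℝ) 2

/-- l_∞(Node). -/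
abbrev Linf : Type := lp (fun _ : Node => ℝ) ⊤

/-- The ambient space l_2(Γ) × l_∞(Node) with the maximum norm. -/
abbrev Amb (Γ : Type) : Type := L2 Γ × Linf

open Classical in
/-- The unit vector e_γ of l_2(Γ). -/
noncomputable def unit {Γ : Type} (γ : Γ) : L2 Γ := lp.single 2 γ 1

/-- The unit vector e_t of l_∞(Node). -/
noncomputable def nodeVec (t : Node) : Linf := lp.single ⊤ t 1

/-- The indicator function of the branch x as an element of l_∞(Node). -/
noncomputable def branchVec (x : ℕ → Bool) : Linf := ⟨branch x, branch_mem x⟩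

/-- The generators (e_γ, η_γ 1_(branch r γ)). -/
noncomputable def gen {Γ : Type} (r : Γ → ℕ → Bool) (η : Γ → ℝ) (γ : Γ) : Amb Γ :=
  (unit γ, η γ • branchVec (r γ))

/-- The generators (0, e_t). -/
noncomputable def gen0 (Γ : Type) (t : Node) : Amb Γ := (0, nodeVec t)

/-- The weighted Johnson-Lindenstrauss space of the branches r γ and the weights η γ, γ ∈ Γ: the
closed linear span, in l_2(Γ) × l_∞(Node) with the maximum norm, of the vectors
(e_γ, η_γ 1_(branch r γ)), γ ∈ Γ, and (0, e_t), t a node. -/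
noncomputable def JL {Γ : Type} (r : Γ → ℕ → Bool) (η : Γ → ℝ) : Submodule ℝ (Amb Γ) :=
  (Submodule.span ℝ (range (gen r η) ∪ range (gen0 Γ))).topologicalClosure

/-- The Banach space JL r η. -/
def Space {Γ : Type} (r : Γ → ℕ → Bool) (η : Γ → ℝ) : Type := JL r η

noncomputable instance {Γ : Type} (r : Γ → ℕ → Bool) (η : Γ → ℝ) :
    NormedAddCommGroup (Space r η) := Submodule.normedAddCommGroup (JL r η)

noncomputable instance {Γ : Type} (r : Γ → ℕ → Bool) (η : Γ → ℝ) :
    NormedSpace ℝ (Space r η) := Submodule.normedSpace (JL r η)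

/-- Admissible data: at least one branch, different branches, weights in (0, 1]. -/
def Admissible {Γ : Type} (r : Γ → ℕ → Bool) (η : Γ → ℝ) : Prop :=
  Nonempty Γ ∧ Function.Injective r ∧ ∀ γ, 0 < η γ ∧ η γ ≤ 1

theorem JL_eq {Γ : Type} (r : Γ → ℕ → Bool) (η : Γ → ℝ) :
    JL r η = Pool.Agent.Helper86.TK.XX r η := by
  have h : ∀ x : ℕ → Bool, branchVec x = Pool.Agent.Helper86.TK.indE x 0 := by
    intro x
    apply Subtype.ext
    funext t
    change branch x t = Pool.Agent.Helper86.TK.ind x 0 t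
    unfold branch Pool.Agent.Helper86.TK.ind Pool.Agent.Helper86.TK.nd
    simp
  have h2 : gen r η = Pool.Agent.Helper86.TK.U r η := by
    funext γ
    unfold gen
    rw [h]
    rfl
  have h3 : gen0 Γ = Pool.Agent.Helper86.TK.Dl Γ := rfl
  unfold JL Pool.Agent.Helper86.TK.XX
  rw [h2, h3]

/-- Every space X = JL r η with admissible data is a nonreflexive Banach space. For every cardinal κ
up to the continuum: AK(X) and AK(B_X) are Tukey equivalent for all X = JL r η with at most κ
branches if and only if κ is smaller than aleph_omega. -/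
theorem result :
    (∀ (Γ : Type) (r : Γ → ℕ → Bool) (η : Γ → ℝ), Admissible r η →
      CompleteSpace (Space r η) ∧ ¬ Reflexive (Space r η)) ∧
    ∀ κ : Cardinal.{0}, κ ≤ Cardinal.continuum →
      ((∀ (Γ : Type) (r : Γ → ℕ → Bool) (η : Γ → ℝ), Admissible r η → Cardinal.mk Γ ≤ κ →
        TukeyEquivalent (Space r η)) ↔ κ < Cardinal.aleph Ordinal.omega0) := by
  refine ⟨?_, fun κ hκ => ⟨?_, ?_⟩⟩
  · intro Γ r η h
    change CompleteSpace (JL r η) ∧ ¬ Reflexive (JL r η)
    rw [JL_eq r η]
    refine ⟨Pool.Agent.Helper86.TK.fin_complete r η, fun hR => ?_⟩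
    refine Pool.Agent.Helper65.JLF.fin_NRF Γ r η h.2 fun F => ?_
    obtain ⟨x, hx⟩ := hR F
    exact ⟨x, ContinuousLinearMap.ext fun f => (hx f).symm⟩
  · intro h
    by_contra hc
    obtain ⟨Γ, r, η, hP, hΓ, hcard, hn⟩ :=
      Pool.Agent.Helper65.JLF.neg ((not_lt.1 hc).trans hκ)
    have h1 : TukeyEquivalent (JL r η) := h Γ r η ⟨hΓ, hP⟩ (hcard.trans (not_lt.1 hc))
    rw [JL_eq r η] at h1
    exact hn h1.1
  · intro hc Γ r η h hcard
    change TukeyEquivalent (JL r η)
    rw [JL_eq r η]
    exact ⟨Pool.Agent.Helper65.JLF.fin_POS Γ r η h.2 h.1 (hcard.trans_lt hc),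
      Pool.Agent.Helper65.TU.st_REV _⟩

end Pool.Agent.Results.MP_5c2ead_an.WeightedJohnsonLindenstrauss
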